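import Mathlib
import Pool.Agent.N546.PN.Stm

set_option autoImplicit false

/-! # Project PN, step SMP: the values of a polynomial are rarely divisible by a high power of `p` -/

namespace Pool.Agent.N434.PNS

open Finset Pool.Agent.N546.PN

theorem cancel {p : ℤ} (hp : Prime p) : ∀ (m : ℕ) (x : ℤ), ¬ p ^ m ∣ x → ∀ (N : ℕ) (y : ℤ),
    p ^ (N + m) ∣ x * y → p ^ N ∣ y := by
  intro m
  induction m with
  | zero =>
    intro x h
    exact absurd (by simp) h
  | succ m ih =>
    intro x hx N y hxy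
    by_cases h : p ∣ x
    · obtain ⟨x', rfl⟩ := h
      have h1 : ¬ p ^ m ∣ x' := by
        intro h2
        apply hx
        rw [pow_succ, mul_comm]
        exact mul_dvd_mul_left p h2
      apply ih x' h1 N y
      rw [← add_assoc, pow_succ, mul_comm (p ^ (N + m)) p, mul_assoc] at hxy
      exact (mul_dvd_mul_iff_left hp.ne_zero).1 hxy
    · have h1 := hp.pow_dvd_of_dvd_mul_left _ h hxy
      exact (pow_dvd_pow p (by omega)).trans h1

theorem one_var (p : ℕ) (hp : p.Prime) (m N1 : ℕ) : ∀ (d : ℕ) (f : Polynomial ℤ),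
    f.natDegree = d → ¬ (p : ℤ) ^ N1 ∣ f.leadingCoeff → ∃ T : Finset ℤ, T.card ≤ d ∧
      ∀ t : ℤ, (p : ℤ) ^ (N1 + d * m) ∣ f.eval t → t % (p : ℤ) ^ m ∈ T := by
  have hpi : Prime (p : ℤ) := Nat.prime_iff_prime_int.1 hp
  intro d
  induction d with
  | zero =>
    intro f hf ha
    refine ⟨∅, le_rfl, fun t ht => ?_⟩
    exfalso
    apply ha
    rw [Polynomial.eq_C_of_natDegree_eq_zero hf, Polynomial.eval_C, zero_mul, add_zero] at ht
    rw [Polynomial.leadingCoeff, hf]
    exact ht
  | succ d ih =>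
    intro f hf ha
    by_cases hex : ∃ t0 : ℤ, (p : ℤ) ^ (N1 + (d + 1) * m) ∣ f.eval t0
    · obtain ⟨t0, ht0⟩ := hex
      obtain ⟨f1, hf1⟩ : ∃ f1 : Polynomial ℤ, f1 = f - Polynomial.C (f.eval t0) := ⟨_, rfl⟩
      have hroot : f1.IsRoot t0 := by
        rw [Polynomial.IsRoot, hf1, Polynomial.eval_sub, Polynomial.eval_C, sub_self]
      obtain ⟨g, hg⟩ : ∃ g : Polynomial ℤ, g = f1 /ₘ (Polynomial.X - Polynomial.C t0) := ⟨_, rfl⟩
      have hfg : (Polynomial.X - Polynomial.C t0) * g = f1 := by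
        rw [hg]
        exact Polynomial.mul_divByMonic_eq_iff_isRoot.2 hroot
      have hd1 : f1.natDegree = d + 1 := by
        rw [hf1, Polynomial.natDegree_sub_C, hf]
      have hl1 : f1.leadingCoeff = f.leadingCoeff := by
        rw [Polynomial.leadingCoeff, Polynomial.leadingCoeff, hd1, hf, hf1, Polynomial.coeff_sub,
          Polynomial.coeff_C_of_ne_zero (Nat.succ_ne_zero d), sub_zero]
      have hdg : g.natDegree = d := by
        rw [hg, Polynomial.natDegree_divByMonic _ (Polynomial.monic_X_sub_C t0), hd1,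
          Polynomial.natDegree_X_sub_C]
        rfl
      have hlg : g.leadingCoeff = f.leadingCoeff := by
        rw [← hl1, ← hfg, Polynomial.leadingCoeff_mul, Polynomial.leadingCoeff_X_sub_C, one_mul]
      obtain ⟨T, hT, hT2⟩ := ih g hdg (by rw [hlg]; exact ha)
      refine ⟨insert (t0 % (p : ℤ) ^ m) T, (card_insert_le _ _).trans (by omega), fun t ht => ?_⟩
      rw [mem_insert]
      by_cases he : t % (p : ℤ) ^ m = t0 % (p : ℤ) ^ m
      · exact Or.inl he
      · right
        apply hT2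
        have h1 : ¬ (p : ℤ) ^ m ∣ t - t0 := by
          intro h2
          exact he (Int.emod_eq_emod_iff_emod_sub_eq_zero.2 (Int.emod_eq_zero_of_dvd h2))
        apply cancel hpi m (t - t0) h1
        have h3 : (t - t0) * g.eval t = f.eval t - f.eval t0 := by
          have h4 := congrArg (Polynomial.eval t) hfg
          rw [Polynomial.eval_mul, Polynomial.eval_sub, Polynomial.eval_X, Polynomial.eval_C, hf1,
            Polynomial.eval_sub, Polynomial.eval_C] at h4
          exact h4
        rw [h3]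
        have h5 : N1 + d * m + m = N1 + (d + 1) * m := by ring
        rw [h5]
        exact dvd_sub ht ht0
    · push Not at hex
      exact ⟨∅, by simp, fun t ht => absurd ht (hex t)⟩

/-- one residue class in an interval -/
theorem class_card (H : ℕ) (M : ℕ) (hM : 0 < M) (r : ℤ) :
    ((Icc (-(H : ℤ)) H).filter fun t => t % (M : ℤ) = r).card ≤ (2 * H) / M + 1 := by
  have hM' : (0 : ℤ) < M := by exact_mod_cast hM
  have h1 : ((Icc (-(H : ℤ)) H).filter fun t => t % (M : ℤ) = r).card ≤
      (range ((2 * H) / M + 1)).card := by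
    apply card_le_card_of_injOn (fun t : ℤ => ((t + H) / (M : ℤ)).toNat)
    · intro t ht
      rw [mem_coe, mem_filter, mem_Icc] at ht
      rw [mem_coe, mem_range]
      have h2 : (t + H) / (M : ℤ) ≤ ((2 * H : ℕ) : ℤ) / M :=
        Int.ediv_le_ediv hM' (by push_cast; omega)
      have h3 : ((t + H) / (M : ℤ)).toNat ≤ (2 * H) / M := by
        rw [Int.toNat_le]
        push_cast at h2 ⊢
        exact h2
      show ((t + H) / (M : ℤ)).toNat < (2 * H) / M + 1
      omega
    · intro t ht t' ht' h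
      rw [mem_coe, mem_filter, mem_Icc] at ht ht'
      simp only at h
      have q1 : 0 ≤ (t + H) / (M : ℤ) := Int.ediv_nonneg (by omega) hM'.le
      have q2 : 0 ≤ (t' + H) / (M : ℤ) := Int.ediv_nonneg (by omega) hM'.le
      have q3 : (t + H) / (M : ℤ) = (t' + H) / (M : ℤ) := by omega
      have h4 : (t + H) % (M : ℤ) = (t' + H) % (M : ℤ) := by
        rw [Int.add_emod, ht.2, Int.add_emod t', ht'.2]
      have h5 := Int.mul_ediv_add_emod (t + H) M
      have h6 := Int.mul_ediv_add_emod (t' + H) M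
      rw [q3, h4] at h5
      omega
  rwa [card_range] at h1

/-- the box -/
noncomputable def Bx (n H : ℕ) : Finset (Fin n → ℤ) := Fintype.piFinset (fun _ : Fin n => Icc (-(H : ℤ)) H)

theorem mem_Bx {n H : ℕ} {c : Fin n → ℤ} : c ∈ Bx n H ↔ ∀ i, c i ∈ Icc (-(H : ℤ)) H := by
  unfold Bx
  rw [Fintype.mem_piFinset]

theorem card_Bx (n H : ℕ) : (Bx n H).card = (2 * H + 1) ^ n := by
  unfold Bx
  rw [Fintype.card_piFinset]
  simp only [Int.card_Icc, prod_const, card_univ, Fintype.card_fin]
  congr 1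
  omega

open Classical in
theorem main_fin (p : ℕ) (hp : p.Prime) : ∀ (n : ℕ) (Q : MvPolynomial (Fin n) ℤ), Q ≠ 0 →
    ∀ ε : ℝ, 0 < ε → ∃ N : ℕ, ∃ H₀ : ℕ, ∀ H : ℕ, H₀ ≤ H →
      (((Bx n H).filter (fun c => (p : ℤ) ^ N ∣ MvPolynomial.eval c Q)).card : ℝ) ≤
        ε * ((2 * H + 1 : ℕ) : ℝ) ^ n := by
  intro n
  induction n with
  | zero =>
    intro Q hQ ε hε
    obtain ⟨a, ha⟩ := MvPolynomial.C_surjective (Fin 0) Q
    have ha0 : a ≠ 0 := by
      rintro rfl
      apply hQ
      rw [← ha, map_zero]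
    refine ⟨a.natAbs, 0, fun H _ => ?_⟩
    have h1 : (Bx 0 H).filter (fun c => (p : ℤ) ^ a.natAbs ∣ MvPolynomial.eval c Q) = ∅ := by
      rw [filter_eq_empty_iff]
      intro c _ h
      rw [← ha, MvPolynomial.eval_C] at h
      have h2 := Int.natAbs_dvd_natAbs.2 h
      rw [Int.natAbs_pow, Int.natAbs_natCast] at h2
      have h3 := Nat.le_of_dvd (Int.natAbs_pos.2 ha0) h2
      have h4 : a.natAbs < p ^ a.natAbs := Nat.lt_pow_self hp.one_lt
      omega
    rw [h1, card_empty]
    push_cast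
    positivity
  | succ n ih =>
    intro Q hQ ε hε
    obtain ⟨F, hF⟩ : ∃ F, F = MvPolynomial.finSuccEquiv ℤ n Q := ⟨_, rfl⟩
    have hF0 : F ≠ 0 := by
      rw [hF]
      exact (map_ne_zero_iff _ (MvPolynomial.finSuccEquiv ℤ n).injective).2 hQ
    obtain ⟨N1, H1, hN1⟩ := ih F.leadingCoeff (Polynomial.leadingCoeff_ne_zero.2 hF0) (ε / 2)
      (by positivity)
    obtain ⟨d, hd⟩ : ∃ d, d = F.natDegree := ⟨_, rfl⟩
    obtain ⟨m, hm⟩ : ∃ m : ℕ, (d : ℝ) / (p : ℝ) ^ m ≤ ε / 4 := by
      have hp1 : (1 : ℝ) < p := by exact_mod_cast hp.one_lt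
      obtain ⟨m, hm⟩ := pow_unbounded_of_one_lt ((d : ℝ) / (ε / 4)) hp1
      refine ⟨m, ?_⟩
      rw [div_lt_iff₀ (by positivity)] at hm
      rw [div_le_iff₀ (by positivity)]
      linarith
    obtain ⟨H2, hH2⟩ := exists_nat_ge ((d : ℝ) / (ε / 4))
    refine ⟨N1 + d * m, max H1 H2, fun H hH => ?_⟩
    have hHH1 : H1 ≤ H := (le_max_left _ _).trans hH
    have hHH2 : (d : ℝ) ≤ ε / 4 * ((2 * H + 1 : ℕ) : ℝ) := by
      rw [div_le_iff₀ (by positivity)] at hH2
      have h1 : (H2 : ℝ) ≤ ((2 * H + 1 : ℕ) : ℝ) := by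
        have := (le_max_right H1 H2).trans hH
        exact_mod_cast (by omega : H2 ≤ 2 * H + 1)
      nlinarith
    have hpm : 0 < p ^ m := pow_pos hp.pos m
    -- the fibres
    have hfib : ∀ c' ∈ Bx n H, ((((Bx (n + 1) H).filter
        (fun c => (p : ℤ) ^ (N1 + d * m) ∣ MvPolynomial.eval c Q)).filter
          fun c => Fin.tail c = c').card : ℝ) ≤
        (if (p : ℤ) ^ N1 ∣ MvPolynomial.eval c' F.leadingCoeff then ((2 * H + 1 : ℕ) : ℝ) else 0) +
          d * (((2 * H + 1 : ℕ) : ℝ) / (p : ℝ) ^ m + 1) := by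
      intro c' hc'
      have h0 : (((Bx (n + 1) H).filter
        (fun c => (p : ℤ) ^ (N1 + d * m) ∣ MvPolynomial.eval c Q)).filter
          fun c => Fin.tail c = c').card ≤ ((Icc (-(H : ℤ)) H).filter fun t =>
            (p : ℤ) ^ (N1 + d * m) ∣
              (F.map (MvPolynomial.eval c')).eval t).card := by
        apply card_le_card_of_injOn (fun c => c 0)
        · intro c hc
          rw [mem_coe, mem_filter, mem_filter, mem_Bx] at hc
          rw [mem_coe, mem_filter]
          refine ⟨hc.1.1 0, ?_⟩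
          have h1 := hc.1.2
          have h2 : c = Fin.cons (c 0) c' := by
            rw [← hc.2]
            exact (Fin.cons_self_tail c).symm
          rw [h2, MvPolynomial.eval_eq_eval_mv_eval', ← hF] at h1
          exact h1
        · intro c hc c1 hc1 h
          rw [mem_coe, mem_filter] at hc hc1
          simp only at h
          rw [← Fin.cons_self_tail c, ← Fin.cons_self_tail c1, h, hc.2, hc1.2]
      have hnn : 0 ≤ (d : ℝ) * (((2 * H + 1 : ℕ) : ℝ) / (p : ℝ) ^ m + 1) := by positivity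
      split_ifs with hbad
      · have h1 : ((Icc (-(H : ℤ)) H).filter fun t =>
            (p : ℤ) ^ (N1 + d * m) ∣ (F.map (MvPolynomial.eval c')).eval t).card ≤ 2 * H + 1 := by
          refine (card_filter_le _ _).trans ?_
          rw [Int.card_Icc]
          omega
        have h2 : ((((Bx (n + 1) H).filter
          (fun c => (p : ℤ) ^ (N1 + d * m) ∣ MvPolynomial.eval c Q)).filter
          fun c => Fin.tail c = c').card : ℝ) ≤ ((2 * H + 1 : ℕ) : ℝ) := by
          exact_mod_cast h0.trans h1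
        linarith
      · have hq0 : MvPolynomial.eval c' F.leadingCoeff ≠ 0 := by
          intro h
          apply hbad
          rw [h]
          exact dvd_zero _
        have h1 : (F.map (MvPolynomial.eval c')).natDegree = d := by
          rw [hd]
          exact Polynomial.natDegree_map_of_leadingCoeff_ne_zero _ hq0
        have h2 : (F.map (MvPolynomial.eval c')).leadingCoeff =
            MvPolynomial.eval c' F.leadingCoeff :=
          Polynomial.leadingCoeff_map_of_leadingCoeff_ne_zero _ hq0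
        obtain ⟨T, hT, hT2⟩ := one_var p hp m N1 d _ h1 (by rw [h2]; exact hbad)
        have h3 : ((Icc (-(H : ℤ)) H).filter fun t =>
            (p : ℤ) ^ (N1 + d * m) ∣ (F.map (MvPolynomial.eval c')).eval t).card ≤
            d * ((2 * H) / p ^ m + 1) := by
          have h4 : ((Icc (-(H : ℤ)) H).filter fun t =>
            (p : ℤ) ^ (N1 + d * m) ∣ (F.map (MvPolynomial.eval c')).eval t) ⊆
            T.biUnion fun r => (Icc (-(H : ℤ)) H).filter fun t => t % ((p ^ m : ℕ) : ℤ) = r := by
            intro t ht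
            rw [mem_filter] at ht
            rw [mem_biUnion]
            refine ⟨t % ((p ^ m : ℕ) : ℤ), ?_, ?_⟩
            · have := hT2 t ht.2
              push_cast
              exact this
            · rw [mem_filter]
              exact ⟨ht.1, rfl⟩
          refine (card_le_card h4).trans (card_biUnion_le.trans ?_)
          refine (sum_le_sum fun r _ => class_card H (p ^ m) hpm r).trans ?_
          rw [sum_const, smul_eq_mul]
          exact Nat.mul_le_mul_right _ hT
        have h5 : (((2 * H) / p ^ m : ℕ) : ℝ) ≤ ((2 * H + 1 : ℕ) : ℝ) / (p : ℝ) ^ m := by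
          refine Nat.cast_div_le.trans ?_
          push_cast
          gcongr
          linarith
        have h6 : ((((Bx (n + 1) H).filter
          (fun c => (p : ℤ) ^ (N1 + d * m) ∣ MvPolynomial.eval c Q)).filter
          fun c => Fin.tail c = c').card : ℝ) ≤ (d : ℝ) * ((((2 * H) / p ^ m : ℕ) : ℝ) + 1) := by
          exact_mod_cast h0.trans h3
        rw [zero_add]
        refine h6.trans ?_
        gcongr
    have hmap : ∀ c ∈ (Bx (n + 1) H).filter
        (fun c => (p : ℤ) ^ (N1 + d * m) ∣ MvPolynomial.eval c Q), Fin.tail c ∈ Bx n H := by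
      intro c hc
      rw [mem_filter, mem_Bx] at hc
      rw [mem_Bx]
      exact fun i => hc.1 i.succ
    have hcard := card_eq_sum_card_fiberwise hmap
    have hih := hN1 H hHH1
    have hsum : (((Bx (n + 1) H).filter
        (fun c => (p : ℤ) ^ (N1 + d * m) ∣ MvPolynomial.eval c Q)).card : ℝ) ≤
        ((Bx n H).filter fun c' => (p : ℤ) ^ N1 ∣ MvPolynomial.eval c' F.leadingCoeff).card *
          ((2 * H + 1 : ℕ) : ℝ) +
        ((2 * H + 1 : ℕ) : ℝ) ^ n * (d * (((2 * H + 1 : ℕ) : ℝ) / (p : ℝ) ^ m + 1)) := by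
      rw [hcard]
      push_cast
      refine (sum_le_sum hfib).trans ?_
      rw [sum_add_distrib, sum_const, card_Bx, nsmul_eq_mul, ← sum_filter, sum_const, nsmul_eq_mul]
      push_cast
      exact le_rfl
    refine hsum.trans ?_
    have hX : (0 : ℝ) < ((2 * H + 1 : ℕ) : ℝ) := by positivity
    generalize ((2 * H + 1 : ℕ) : ℝ) = X at *
    have e1 : (((Bx n H).filter fun c' => (p : ℤ) ^ N1 ∣
        MvPolynomial.eval c' F.leadingCoeff).card : ℝ) * X ≤ ε / 2 * X ^ n * X :=
      mul_le_mul_of_nonneg_right hih hX.le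
    have e2 : (d : ℝ) * (X / (p : ℝ) ^ m + 1) ≤ ε / 2 * X := by
      have e3 : (d : ℝ) * (X / (p : ℝ) ^ m) ≤ ε / 4 * X := by
        calc (d : ℝ) * (X / (p : ℝ) ^ m) = (d : ℝ) / (p : ℝ) ^ m * X := by ring
          _ ≤ ε / 4 * X := mul_le_mul_of_nonneg_right hm hX.le
      linarith
    have e4 : X ^ n * ((d : ℝ) * (X / (p : ℝ) ^ m + 1)) ≤ X ^ n * (ε / 2 * X) :=
      mul_le_mul_of_nonneg_left e2 (by positivity)
    calc _ ≤ ε / 2 * X ^ n * X + X ^ n * (ε / 2 * X) := add_le_add e1 e4
      _ = ε * X ^ (n + 1) := by ring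

theorem smp_ : S_SMP := by
  intro σ _ _ Q hQ p hp ε hε
  classical
  obtain ⟨e⟩ : Nonempty (σ ≃ Fin (Fintype.card σ)) := ⟨Fintype.equivFin σ⟩
  have hQ' : MvPolynomial.rename e Q ≠ 0 := by
    intro h
    apply hQ
    exact MvPolynomial.rename_injective e e.injective (by rw [h, map_zero])
  obtain ⟨N, H₀, h⟩ := main_fin p hp _ (MvPolynomial.rename e Q) hQ' ε hε
  refine ⟨N, H₀, fun H hH => ?_⟩
  refine le_trans ?_ (h H hH)
  rw [Nat.cast_le]
  apply card_le_card_of_injOn (fun c => c ∘ e.symm)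
  · intro c hc
    rw [mem_coe, mem_filter, Fintype.mem_piFinset] at hc
    rw [mem_coe, mem_filter, mem_Bx]
    refine ⟨fun i => hc.1 _, ?_⟩
    rw [MvPolynomial.eval_rename]
    have e1 : (c ∘ e.symm) ∘ e = c := by
      funext i
      simp
    rw [e1]
    exact hc.2
  · intro c _ c1 _ h1
    funext i
    have := congrFun h1 (e i)
    simpa using this

end Pool.Agent.N434.PNS
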